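import Mathlib
import Pool.Agent.N30.MZ.Al

/-!
# The direction of zeta and its high moments

Let `z(t) = ζ(1/2 + it)` and `k ≥ 1`.  All integrals with the weight `g = exp (-((t - T)/Δ)²)` are over
`T/2 < t < 3T/2`.  Unconditional results:

* the moments `∫ |z|^{2k} (z/|z|)^{2m} g dt` are evaluated for all `m ≥ k - 1`: for `m = k - 1` the value is
  `√π Δ (log T)^{2k-1} (1/(2k-1)! + O(1/log T))`, for `m = k` it is `√π Δ + O(T^{-2})`, for `m ≥ k + 1` it is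
  `O(T^{-2})`, uniformly for `T^{1-δ} ≤ Δ ≤ T/(B √(log T))`;
* for every `N ≥ 1` the weighted sum of `|z|^{2k}` over the heights at which `z` lies on one of `N` lines through `0`
  (at equal angles, `u` a point of one of them) is `∫ |z|^{2k} g dt` plus `2 Re` of the sum over `1 ≤ m ≤ k` of
  `(|u|/u)^{2Nm} ∫ |z|^{2k} (z/|z|)^{2Nm} g dt`, up to `O(T^{-2})`; hence for `N = k - 1` lines the difference of the sum
  and the integral is `(2 Re (|u|/u)^{2k-2} + O(1/log T)) √π Δ (log T)^{2k-1}/(2k-1)!`;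
* equidistribution: for `N ≥ max (1, k - 1)` the share of the `2k`-th moment that comes from the heights at which
  `N arg z(t) / π` is within `r` of `c` modulo `1` tends to `2r`, in the Gaussian windows above and (up to a factor
  `1 + ε` and changes of the endpoints by `ε T`) on `[T, 2T]`; the same for the sums over `N` lines;
* for `N ≥ max (1, k - 1)` the asymptotic formula `∫_0^T |z|^{2k} dt ~ a T (log T)^{k²}` is equivalent to the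
  asymptotic formula `2 r a T (log T)^{k²}` for the moment over the sector, for one (or every) `c` and `r > 0`, and
  to the asymptotic formula for the sum over `N` lines.

The base of the proof is the library of the starting result `SamplingTheorem` (`N ≥ k + 1` lines).
-/

set_option autoImplicit false

open Filter Topology Set MeasureTheory

namespace Pool.Agent.Results.MP_112ba8_nt.DirectionOfZeta

/-- The value `ζ(1/2 + it)`. -/
noncomputable def z (t : ℝ) : ℂ := riemannZeta (1 / 2 + t * Complex.I)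

/-- The heights at which `N arg ζ(1/2 + it) / π` is within `r` of `c` modulo `1`. -/
def Sec (N : ℕ) (c r : ℝ) : Set ℝ :=
  {t | |(N * Complex.arg (z t) / Real.pi - c) - round (N * Complex.arg (z t) / Real.pi - c)| ≤ r}

/-- The heights `t > 100` at which `ζ(1/2 + it)` is a nonzero point of one of the `N` lines `u e^{πij/N} ℝ`. -/
def Pts (u : ℂ) (N : ℕ) : Set ℝ :=
  {t | 100 < t ∧ ∃ (j : ℕ) (r : ℝ), r ≠ 0 ∧ z t = r * (u * Complex.exp (Real.pi * Complex.I * j / N))}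

/-- The Gaussian weight. -/
noncomputable def g (T Δ t : ℝ) : ℝ := Real.exp (-((t - T) / Δ) ^ 2)

/-- The Gaussian `2k`-th moment. -/
noncomputable def M (k : ℕ) (T Δ : ℝ) : ℝ := ∫ t in (T / 2)..(3 * T / 2), ‖z t‖ ^ (2 * k) * g T Δ t

/-- The `2k`-th moment twisted by the `2m`-th power of the direction of zeta. -/
noncomputable def J (k m : ℕ) (T Δ : ℝ) : ℂ :=
  ∫ t in (T / 2)..(3 * T / 2), ((‖z t‖ ^ (2 * k) * g T Δ t : ℝ) : ℂ) * (z t / (‖z t‖ : ℂ)) ^ (2 * m)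

/-- The factor `X(s) = χ(1 - s)` of the functional equation `ζ(1 - s) = X(s) ζ(s)`. -/
noncomputable def X (s : ℂ) : ℂ :=
  2 * (2 * (Real.pi : ℂ)) ^ (-s) * Complex.Gamma s * Complex.cos (Real.pi * s / 2)

/-- The logarithmic derivative of `X` at `1/2 + it` (a real number, `log (t/2π) + O(1/t)`). -/
noncomputable def lam (t : ℝ) : ℝ := (logDeriv X (1 / 2 + t * Complex.I)).re

/-- The Gaussian `2k`-th moment over the points on the `N` lines. -/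
noncomputable def D (k N : ℕ) (u : ℂ) (T Δ : ℝ) : ℝ :=
  2 * Real.pi / N * (∑ᶠ t ∈ Pts u N ∩ Ioo (T / 2) (3 * T / 2), ‖z t‖ ^ (2 * k) * g T Δ t / lam t)

open Pool.Agent.W188.QS Pool.Agent.N30.MZ

lemma X_eq : X = XX := rfl

lemma lam_eq (t : ℝ) : lam t = Pool.Agent.W188.QS.lam t := rfl

lemma Zk_z (k : ℕ) (t : ℝ) : ‖z t‖ ^ (2 * k) = Zk k t := rfl

lemma g_eq (T Δ t : ℝ) : g T Δ t = gg T Δ t := rfl

lemma M_eq (k : ℕ) (T Δ : ℝ) : M k T Δ = IM k T Δ := rfl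

lemma Sec_eq (N : ℕ) (c r : ℝ) : Sec N c r = Sc N c r := by
  unfold Sec Sc
  ext t
  simp only [mem_setOf_eq]
  have e : ((xx N t : ℝ) : UnitAddCircle) - ((c : ℝ) : UnitAddCircle) =
      ((N * Complex.arg (z t) / Real.pi - c : ℝ) : UnitAddCircle) := by
    rw [AddCircle.coe_sub]
    rfl
  rw [e, UnitAddCircle.norm_eq]

lemma J_eq {k : ℕ} (hk : 1 ≤ k) (m : ℕ) {T Δ : ℝ} (hT : 2 ≤ T) : J k m T Δ = TW k m T Δ := by
  unfold J TW
  apply intervalIntegral.integral_congr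
  intro t ht
  rw [uIcc_of_le (by linarith)] at ht
  have ht1 : 1 ≤ t := by linarith [ht.1]
  simp only
  rw [Zk_z, g_eq]
  by_cases hz : z t = 0
  · have h1 : Zk k t = 0 := by
      rw [← Zk_z, hz, norm_zero, zero_pow (by omega)]
    rw [h1]
    simp
  · have hX : ‖XX (cp t)‖ = 1 := a_line.2.1 t
    have hX0 : XX (cp t) ≠ 0 := by
      intro h
      rw [h] at hX
      simp at hX
    have hfe : (starRingEnd ℂ) (z t) = XX (cp t) * z t := a_line.2.2.1 t ht1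
    have hn : (‖z t‖ : ℂ) ≠ 0 := by exact_mod_cast norm_ne_zero_iff.2 hz
    have h2 : (z t / (‖z t‖ : ℂ)) ^ 2 = (XX (cp t))⁻¹ := by
      have h3 : (z t) * (starRingEnd ℂ) (z t) = ((‖z t‖ : ℂ)) ^ 2 := by
        rw [Complex.mul_conj, Complex.normSq_eq_norm_sq]
        push_cast
        rfl
      rw [hfe] at h3
      rw [div_pow, ← h3]
      field_simp
    rw [pow_mul, h2]
    push_cast
    ring

/-- the number `c` that belongs to the direction `u` -/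
noncomputable def cc (u : ℂ) (N : ℕ) : ℂ := ((u / (‖u‖ : ℂ))⁻¹) ^ (2 * N)

lemma cc_norm {u : ℂ} (hu : u ≠ 0) (N : ℕ) : ‖cc u N‖ = 1 := by
  have h : ‖u‖ ≠ 0 := norm_ne_zero_iff.2 hu
  unfold cc
  rw [norm_pow, norm_inv, norm_div, Complex.norm_real, norm_norm, div_self h]
  simp

/-- points on the critical line with `w = 1`, in terms of `ζ` -/
lemma ww_iff {c : ℂ} {N : ℕ} {t : ℝ} (ht : 1 ≤ t) (hz : z t ≠ 0) :
    ww c N (cp t) = 1 ↔ c * z t ^ (2 * N) = ((‖z t‖ ^ (2 * N) : ℝ) : ℂ) := by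
  have hX : ‖XX (cp t)‖ = 1 := a_line.2.1 t
  have hX0 : XX (cp t) ≠ 0 := by
    intro h
    rw [h] at hX
    simp at hX
  have hfe : (starRingEnd ℂ) (z t) = XX (cp t) * z t := a_line.2.2.1 t ht
  have h1 : ((‖z t‖ ^ (2 * N) : ℝ) : ℂ) = XX (cp t) ^ N * z t ^ (2 * N) := by
    have h2 : ((‖z t‖ ^ 2 : ℝ) : ℂ) = XX (cp t) * z t ^ 2 := by
      have h3 := Complex.mul_conj (z t)
      rw [hfe, Complex.normSq_eq_norm_sq] at h3
      rw [← h3]; ring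
    rw [pow_mul, Complex.ofReal_pow, h2, mul_pow, pow_mul]
  rw [h1]
  have hz2 : z t ^ (2 * N) ≠ 0 := pow_ne_zero _ hz
  unfold ww
  rw [inv_pow]
  constructor
  · intro h
    have h2 : c = XX (cp t) ^ N := by
      have := congrArg (fun x => x * XX (cp t) ^ N) h
      simp only [one_mul] at this
      rw [mul_assoc, inv_mul_cancel₀ (pow_ne_zero _ hX0), mul_one] at this
      exact this
    rw [h2]
  · intro h
    have h2 : c = XX (cp t) ^ N := mul_right_cancel₀ hz2 h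
    rw [h2]
    exact mul_inv_cancel₀ (pow_ne_zero _ hX0)

/-- the algebraic description of the `N` lines -/
lemma line_iff {u x : ℂ} {N : ℕ} (hu : u ≠ 0) (hN : 1 ≤ N) (hx : x ≠ 0) :
    cc u N * x ^ (2 * N) = ((‖x‖ ^ (2 * N) : ℝ) : ℂ) ↔
      ∃ (j : ℕ) (r : ℝ), r ≠ 0 ∧ x = r * (u * Complex.exp (Real.pi * Complex.I * j / N)) := by
  have hu0 : ‖u‖ ≠ 0 := norm_ne_zero_iff.2 hu
  have hx0 : ‖x‖ ≠ 0 := norm_ne_zero_iff.2 hx
  have hu1 : (‖u‖ : ℂ) ≠ 0 := by exact_mod_cast hu0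
  have hx1 : (‖x‖ : ℂ) ≠ 0 := by exact_mod_cast hx0
  have hN0 : (N : ℂ) ≠ 0 := by
    have : N ≠ 0 := by omega
    exact_mod_cast this
  set v : ℂ := (u / (‖u‖ : ℂ))⁻¹ * (x / (‖x‖ : ℂ)) with hv
  have hv1 : cc u N * x ^ (2 * N) = v ^ (2 * N) * ((‖x‖ ^ (2 * N) : ℝ) : ℂ) := by
    rw [hv, cc, mul_pow, div_pow]
    push_cast
    field_simp
  have hX0 : ((‖x‖ ^ (2 * N) : ℝ) : ℂ) ≠ 0 := by
    push_cast
    exact pow_ne_zero _ hx1
  have hxv : x = ((‖x‖ / ‖u‖ : ℝ) : ℂ) * (u * v) := by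
    rw [hv]
    push_cast
    field_simp
  constructor
  · intro h
    rw [hv1] at h
    have h1 : v ^ (2 * N) = 1 := by
      have h2 : v ^ (2 * N) * ((‖x‖ ^ (2 * N) : ℝ) : ℂ) = 1 * ((‖x‖ ^ (2 * N) : ℝ) : ℂ) := by
        rw [h, one_mul]
      exact mul_right_cancel₀ hX0 h2
    have h2N : 2 * N ≠ 0 := by omega
    have : NeZero (2 * N) := ⟨h2N⟩
    obtain ⟨j, hj, hj2⟩ := (Complex.isPrimitiveRoot_exp (2 * N) h2N).eq_pow_of_pow_eq_one h1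
    refine ⟨j, ‖x‖ / ‖u‖, div_ne_zero hx0 hu0, ?_⟩
    have e1 : Complex.exp (Real.pi * Complex.I * j / N) = v := by
      rw [← hj2, ← Complex.exp_nat_mul]
      congr 1
      push_cast
      field_simp
    rw [e1]
    exact hxv
  · rintro ⟨j, r, hr, hxr⟩
    have hE : Complex.exp (Real.pi * Complex.I * j / N) ^ (2 * N) = 1 := by
      rw [← Complex.exp_nat_mul]
      have : ((2 * N : ℕ) : ℂ) * (Real.pi * Complex.I * j / N) = (j : ℤ) * (2 * Real.pi * Complex.I) := by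
        push_cast
        field_simp
      rw [this, Complex.exp_int_mul_two_pi_mul_I]
    have hEn : ‖Complex.exp (Real.pi * Complex.I * j / N)‖ = 1 := by
      have e : (Real.pi * Complex.I * j / N : ℂ) = ((Real.pi * j / N : ℝ) : ℂ) * Complex.I := by
        push_cast; ring
      rw [e, Complex.norm_exp_ofReal_mul_I]
    have hxn : ‖x‖ = |r| * ‖u‖ := by
      rw [hxr, norm_mul, norm_mul, hEn, Complex.norm_real, Real.norm_eq_abs, mul_one]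
    have h4 : ((‖x‖ ^ (2 * N) : ℝ) : ℂ) = (r : ℂ) ^ (2 * N) * (‖u‖ : ℂ) ^ (2 * N) := by
      rw [hxn, mul_pow, pow_mul |r|, sq_abs, ← pow_mul]
      push_cast
      ring
    rw [h4, cc, hxr]
    set E := Complex.exp (Real.pi * Complex.I * j / N)
    have : ((u / (‖u‖ : ℂ))⁻¹) ^ (2 * N) * ((r : ℂ) * (u * E)) ^ (2 * N) =
        (r : ℂ) ^ (2 * N) * (‖u‖ : ℂ) ^ (2 * N) * E ^ (2 * N) := by
      rw [inv_div, ← mul_pow, ← mul_pow, ← mul_pow]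
      congr 1
      field_simp
    rw [this, hE, mul_one]

lemma Pts_iff {u : ℂ} {N : ℕ} (hu : u ≠ 0) (hN : 1 ≤ N) {t : ℝ} (hz : z t ≠ 0) :
    t ∈ Pts u N ↔ t ∈ PP (cc u N) N := by
  constructor
  · rintro ⟨h1, h2⟩
    exact ⟨h1, (ww_iff (by linarith) hz).2 ((line_iff hu hN hz).2 h2)⟩
  · rintro ⟨h1, h2⟩
    exact ⟨h1, (line_iff hu hN hz).1 ((ww_iff (by linarith) hz).1 h2)⟩

/-- sums over `Pts` and over `PP` -/
lemma sum_eq {u : ℂ} {N : ℕ} (hu : u ≠ 0) (hN : 1 ≤ N) (U : Set ℝ) (f : ℝ → ℝ)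
    (hf : ∀ t, z t = 0 → f t = 0) :
    ∑ᶠ t ∈ Pts u N ∩ U, f t = ∑ᶠ t ∈ PP (cc u N) N ∩ U, f t := by
  apply finsum_mem_inter_support_eq
  ext t
  simp only [mem_inter_iff, Function.mem_support]
  constructor
  · rintro ⟨⟨h1, h2⟩, h3⟩
    have hz : z t ≠ 0 := fun h => h3 (hf t h)
    exact ⟨⟨(Pts_iff hu hN hz).1 h1, h2⟩, h3⟩
  · rintro ⟨⟨h1, h2⟩, h3⟩
    have hz : z t ≠ 0 := fun h => h3 (hf t h)
    exact ⟨⟨(Pts_iff hu hN hz).2 h1, h2⟩, h3⟩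

/-- sums with weights -/
lemma sum_rho {u : ℂ} {N k : ℕ} (hu : u ≠ 0) (hN : 1 ≤ N) (hk : 1 ≤ k) (U : Set ℝ) (x : ℝ)
    (hU : U ⊆ Iic x) (g : ℝ → ℝ) :
    2 * Real.pi / N * (∑ᶠ t ∈ Pts u N ∩ U, ‖z t‖ ^ (2 * k) * g t / lam t) =
      ∑ᶠ t ∈ PP (cc u N) N ∩ U, rho k N t * g t := by
  rw [sum_eq hu hN]
  · have hf : (PP (cc u N) N ∩ U).Finite :=
      (a_line.2.2.2.2.2.2.2.2.2 (cc u N) N (cc_norm hu N) hN x).subset
        (inter_subset_inter_right _ hU)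
    rw [finsum_mem_eq_finite_toFinset_sum _ hf, finsum_mem_eq_finite_toFinset_sum _ hf,
      Finset.mul_sum]
    apply Finset.sum_congr rfl
    intro t _
    simp only [rho, lam_eq, Zk_z]
    ring
  · intro t ht
    rw [ht, norm_zero, zero_pow (by omega)]
    simp

lemma D_eq {u : ℂ} {N k : ℕ} (hu : u ≠ 0) (hN : 1 ≤ N) (hk : 1 ≤ k) (T Δ : ℝ) :
    D k N u T Δ = ∑ᶠ t ∈ PP (cc u N) N ∩ Ioo (T / 2) (3 * T / 2), rho k N t * gg T Δ t := by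
  unfold D
  exact sum_rho hu hN hk (Ioo (T / 2) (3 * T / 2)) (3 * T / 2) (fun _ h => h.2.le) (g T Δ)

lemma SS_eq {u : ℂ} {N k : ℕ} (hu : u ≠ 0) (hN : 1 ≤ N) (hk : 1 ≤ k) (a b : ℝ) :
    ∑ᶠ t ∈ Pts u N ∩ Ioc a b, ‖z t‖ ^ (2 * k) = SS (cc u N) N (Zk k) a b := by
  unfold SS
  exact sum_eq hu hN _ _ fun t ht => by rw [ht, norm_zero, zero_pow (by omega)]

lemma cc_pow {u : ℂ} (N m : ℕ) : cc u N ^ m = ((‖u‖ : ℂ) / u) ^ (2 * N * m) := by
  unfold cc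
  rw [inv_div, ← pow_mul]

lemma rp (k : ℕ) (T : ℝ) : Real.log T ^ ((k : ℝ) ^ 2) = Real.log T ^ (k ^ 2) := by
  rw [← Real.rpow_natCast (Real.log T) (k ^ 2)]
  congr 1
  push_cast
  rfl

lemma rp1 (k : ℕ) (T : ℝ) : Real.log T ^ ((k : ℝ) ^ 2 + 1) = Real.log T ^ (k ^ 2 + 1) := by
  rw [← Real.rpow_natCast (Real.log T) (k ^ 2 + 1)]
  congr 1
  push_cast
  rfl

theorem result :
    -- the moments twisted by powers of the direction
    (∀ k : ℕ, 1 ≤ k → ∃ δ B C T₀ : ℝ, 0 < δ ∧ ∀ T Δ : ℝ, T₀ ≤ T → T ^ (1 - δ) ≤ Δ →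
      B * Δ * √(Real.log T) ≤ T →
      ‖J k (k - 1) T Δ - ((√Real.pi * Δ * (Real.log T ^ (2 * k - 1) / (2 * k - 1).factorial) : ℝ) : ℂ)‖ ≤
        C * (Δ * Real.log T ^ (2 * k - 2)) ∧
      ‖J k k T Δ - ((√Real.pi * Δ : ℝ) : ℂ)‖ ≤ C * T ^ (-(2 : ℝ)) ∧
      ∀ m : ℕ, k + 1 ≤ m → ‖J k m T Δ‖ ≤ C * T ^ (-(2 : ℝ))) ∧
    -- the exact formula for the sums over the points on any number of lines
    (∀ k N : ℕ, 1 ≤ k → 1 ≤ N → ∃ B C T₀ : ℝ, ∀ (u : ℂ) (T Δ : ℝ), u ≠ 0 → T₀ ≤ T → 1 ≤ Δ →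
      B * Δ * √(Real.log T) ≤ T →
      |D k N u T Δ - M k T Δ -
        2 * (∑ m ∈ Finset.Icc 1 k, ((‖u‖ : ℂ) / u) ^ (2 * N * m) * J k (N * m) T Δ).re| ≤ C * T ^ (-(2 : ℝ))) ∧
    -- `k - 1` lines
    (∀ k : ℕ, 2 ≤ k → ∃ δ B C T₀ : ℝ, 0 < δ ∧ ∀ (u : ℂ) (T Δ : ℝ), u ≠ 0 → T₀ ≤ T → T ^ (1 - δ) ≤ Δ →
      B * Δ * √(Real.log T) ≤ T →
      |D k (k - 1) u T Δ - M k T Δ - 2 * (((‖u‖ : ℂ) / u) ^ (2 * (k - 1))).re *
        (√Real.pi * Δ * (Real.log T ^ (2 * k - 1) / (2 * k - 1).factorial))| ≤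
        C * (Δ * Real.log T ^ (2 * k - 2))) ∧
    -- equidistribution of the direction modulo `π / N` in Gaussian windows
    (∀ k : ℕ, 1 ≤ k → ∃ δ B : ℝ, 0 < δ ∧ ∀ N : ℕ, 1 ≤ N → k ≤ N + 1 → ∀ c r ε : ℝ, 0 ≤ r → r ≤ 1 / 2 → 0 < ε →
      ∃ T₀ : ℝ, ∀ T Δ : ℝ, T₀ ≤ T → T ^ (1 - δ) ≤ Δ → B * Δ * √(Real.log T) ≤ T →
        0 < M k T Δ ∧
        |(∫ t in Ioc (T / 2) (3 * T / 2) ∩ Sec N c r, ‖z t‖ ^ (2 * k) * g T Δ t) - 2 * r * M k T Δ| ≤
          ε * M k T Δ) ∧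
    -- equidistribution on `[T, 2T]`, and the equivalence of the asymptotic formulas
    (∀ k N : ℕ, 1 ≤ k → 1 ≤ N → k ≤ N + 1 →
      (∀ c r ε : ℝ, 0 < r → r ≤ 1 / 2 → 0 < ε → ε ≤ 1 / 2 → ∀ᶠ T : ℝ in atTop,
        (∫ t in Ioc T (2 * T) ∩ Sec N c r, ‖z t‖ ^ (2 * k)) ≤
            (1 + ε) * (2 * r * ∫ t in ((1 - ε) * T)..((2 + ε) * T), ‖z t‖ ^ (2 * k)) ∧
        2 * r * (∫ t in T..(2 * T), ‖z t‖ ^ (2 * k)) ≤
            (1 + ε) * ∫ t in Ioc ((1 - ε) * T) ((2 + ε) * T) ∩ Sec N c r, ‖z t‖ ^ (2 * k)) ∧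
      (∀ (u : ℂ) (ε : ℝ), u ≠ 0 → 0 < ε → ε < 1 → ∀ᶠ T : ℝ in atTop,
        (∑ᶠ t ∈ Pts u N ∩ Ioc T (2 * T), ‖z t‖ ^ (2 * k)) ≤ (N / (2 * Real.pi) + ε) *
            (Real.log T * ∫ t in ((1 - ε) * T)..((2 + ε) * T), ‖z t‖ ^ (2 * k)) ∧
        (N / (2 * Real.pi) - ε) * (Real.log T * ∫ t in T..(2 * T), ‖z t‖ ^ (2 * k)) ≤
            ∑ᶠ t ∈ Pts u N ∩ Ioc ((1 - ε) * T) ((2 + ε) * T), ‖z t‖ ^ (2 * k)) ∧
      (∀ a c r : ℝ, 0 < r → r ≤ 1 / 2 →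
        (Tendsto (fun T => (∫ t in (0 : ℝ)..T, ‖z t‖ ^ (2 * k)) / (T * Real.log T ^ (k ^ 2))) atTop (𝓝 a) ↔
          Tendsto (fun T => (∫ t in Ioc 0 T ∩ Sec N c r, ‖z t‖ ^ (2 * k)) / (T * Real.log T ^ (k ^ 2))) atTop
            (𝓝 (2 * r * a)))) ∧
      (∀ (a : ℝ) (u : ℂ), u ≠ 0 →
        (Tendsto (fun T => (∫ t in (0 : ℝ)..T, ‖z t‖ ^ (2 * k)) / (T * Real.log T ^ (k ^ 2))) atTop (𝓝 a) ↔
          Tendsto (fun T => 2 * Real.pi / N * (∑ᶠ t ∈ Pts u N ∩ Ioc 0 T, ‖z t‖ ^ (2 * k)) /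
            (T * Real.log T ^ (k ^ 2 + 1))) atTop (𝓝 a)))) := by
  refine ⟨fun k hk => ?_, fun k N hk hN => ?_, fun k hk2 => ?_, fun k hk => ?_, fun k N hk hN hkN => ⟨?_, ?_, ?_, ?_⟩⟩
  · obtain ⟨K, δ, B, T₀, hK, hδ, -, hB, hT₀, h⟩ := tw k hk
    refine ⟨δ, B, K, T₀, hδ, fun T Δ hT hΔ hBT => ?_⟩
    have hT2 : 2 ≤ T := by linarith
    obtain ⟨h1, h2, h3⟩ := h T Δ hT hΔ hBT
    simp only [J_eq hk _ hT2]
    exact ⟨h1, h2, h3⟩
  · obtain ⟨C, B, T₀, hC, hB, hT₀, h⟩ := aliasing k N hk hN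
    refine ⟨B, C, T₀, fun u T Δ hu hT hΔ hBT => ?_⟩
    have hT2 : 2 ≤ T := by linarith
    have h1 := h (cc u N) T Δ (cc_norm hu N) hT hΔ hBT
    rw [D_eq hu hN hk, M_eq]
    simp only [J_eq hk _ hT2, ← cc_pow]
    exact h1
  · obtain ⟨C, B1, T1, hC, hB1, hT1, h1⟩ := aliasing k (k - 1) (by omega) (by omega)
    obtain ⟨K, δ, B2, T2, hK, hδ, hδ4, hB2, hT2, h2⟩ := tw k (by omega)
    have hk : 1 ≤ k := by omega
    refine ⟨δ, max B1 B2, C + 2 * (K + k * (K + √Real.pi)), max T1 T2, hδ, fun u T Δ hu hT hΔ hBT => ?_⟩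
    have t1 : T1 ≤ T := (le_max_left _ _).trans hT
    have t2 : T2 ≤ T := (le_max_right _ _).trans hT
    have hT100 : 100 ≤ T := hT2.trans t2
    have hT0 : 0 < T := by linarith
    have hΔ1 : 1 ≤ Δ := by
      refine le_trans ?_ hΔ
      exact Real.one_le_rpow (by linarith) (by linarith)
    have hΔ0 : 0 < Δ := by linarith
    have hBB : ∀ b : ℝ, b ≤ max B1 B2 → b * Δ * √(Real.log T) ≤ T := by
      intro b hb
      refine le_trans ?_ hBT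
      apply mul_le_mul_of_nonneg_right _ (Real.sqrt_nonneg _)
      exact mul_le_mul_of_nonneg_right hb hΔ0.le
    have hL1 : 1 ≤ Real.log T := by
      rw [Real.le_log_iff_exp_le hT0]
      have := Real.exp_one_lt_d9
      linarith
    obtain ⟨m1, m2, m3⟩ := h2 T Δ t2 hΔ (hBB B2 (le_max_right _ _))
    have q1 := h1 (cc u (k - 1)) T Δ (cc_norm hu _) t1 hΔ1 (hBB B1 (le_max_left _ _))
    rw [D_eq hu (by omega) hk, M_eq]
    obtain ⟨c, hc⟩ : ∃ c, c = cc u (k - 1) := ⟨_, rfl⟩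
    have hcn : ‖c‖ = 1 := by rw [hc]; exact cc_norm hu _
    have hc2 : ((‖u‖ : ℂ) / u) ^ (2 * (k - 1)) = c := by
      rw [hc]; unfold cc; rw [inv_div]
    rw [hc2]
    rw [← hc] at q1 ⊢
    obtain ⟨Q, hQ⟩ : ∃ Q : ℝ, Q = √Real.pi * Δ * (Real.log T ^ (2 * k - 1) / (2 * k - 1).factorial) := ⟨_, rfl⟩
    rw [← hQ] at m1 ⊢
    obtain ⟨L, hL⟩ : ∃ L, L = Real.log T ^ (2 * k - 2) := ⟨_, rfl⟩
    rw [← hL] at m1 ⊢
    have hLp : 1 ≤ L := by rw [hL]; exact one_le_pow₀ hL1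
    have hT2' : T ^ (-(2 : ℝ)) ≤ 1 := Real.rpow_le_one_of_one_le_of_nonpos (by linarith) (by norm_num)
    have hΔL : 1 ≤ Δ * L := one_le_mul_of_one_le_of_one_le hΔ1 hLp
    have hΔL' : Δ ≤ Δ * L := le_mul_of_one_le_right hΔ0.le hLp
    -- the terms `m ≥ 2`
    have hsp : 0 ≤ √Real.pi := Real.sqrt_nonneg _
    have hrest : ∀ m ∈ Finset.Icc 2 k, ‖c ^ m * TW k ((k - 1) * m) T Δ‖ ≤ (K + √Real.pi) * (Δ * L) := by
      intro m hm
      rw [Finset.mem_Icc] at hm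
      rw [norm_mul, norm_pow, hcn, one_pow, one_mul]
      have hge : k ≤ (k - 1) * m := by
        have : (k - 1) * 2 ≤ (k - 1) * m := Nat.mul_le_mul_left _ hm.1
        omega
      rcases hge.eq_or_lt with h3 | h3
      · rw [← h3]
        have e : TW k k T Δ = (TW k k T Δ - ((√Real.pi * Δ : ℝ) : ℂ)) + ((√Real.pi * Δ : ℝ) : ℂ) := by ring
        rw [e]
        refine (norm_add_le _ _).trans ?_
        rw [Complex.norm_real, Real.norm_of_nonneg (by positivity : 0 ≤ √Real.pi * Δ)]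
        have h4 : K * T ^ (-(2 : ℝ)) ≤ K * (Δ * L) := mul_le_mul_of_nonneg_left (hT2'.trans hΔL) hK
        have h5 : √Real.pi * Δ ≤ √Real.pi * (Δ * L) := mul_le_mul_of_nonneg_left hΔL' hsp
        linarith
      · refine (m3 _ h3).trans ?_
        have h4 : K * T ^ (-(2 : ℝ)) ≤ K * (Δ * L) := mul_le_mul_of_nonneg_left (hT2'.trans hΔL) hK
        have h5 : 0 ≤ √Real.pi * (Δ * L) := by positivity
        linarith
    have hsplit : ∑ m ∈ Finset.Icc 1 k, c ^ m * TW k ((k - 1) * m) T Δ = c * TW k (k - 1) T Δ +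
        ∑ m ∈ Finset.Icc 2 k, c ^ m * TW k ((k - 1) * m) T Δ := by
      rw [← Finset.add_sum_Ioc_eq_sum_Icc hk, pow_one, mul_one]
      rfl
    have hrs : ‖∑ m ∈ Finset.Icc 2 k, c ^ m * TW k ((k - 1) * m) T Δ‖ ≤ k * ((K + √Real.pi) * (Δ * L)) := by
      refine (norm_sum_le _ _).trans ((Finset.sum_le_sum hrest).trans ?_)
      rw [Finset.sum_const, Nat.card_Icc, nsmul_eq_mul]
      apply mul_le_mul_of_nonneg_right _ (by positivity)
      exact_mod_cast (by omega : k + 1 - 2 ≤ k)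
    rw [hsplit, Complex.add_re] at q1
    have hre1 : |(c * TW k (k - 1) T Δ).re - c.re * Q| ≤ K * (Δ * L) := by
      have e : (c * TW k (k - 1) T Δ).re - c.re * Q = (c * (TW k (k - 1) T Δ - ((Q : ℝ) : ℂ))).re := by
        rw [mul_sub, Complex.sub_re, Complex.re_mul_ofReal]
      rw [e]
      refine (Complex.abs_re_le_norm _).trans ?_
      rw [norm_mul, hcn, one_mul]
      exact m1
    have hre2 := (Complex.abs_re_le_norm _).trans hrs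
    obtain ⟨S, hS⟩ : ∃ S, S = ∑ᶠ t ∈ PP c (k - 1) ∩ Ioo (T / 2) (3 * T / 2), rho k (k - 1) t * gg T Δ t := ⟨_, rfl⟩
    rw [← hS] at q1 ⊢
    obtain ⟨a1, ha1⟩ : ∃ a1, a1 = (c * TW k (k - 1) T Δ).re := ⟨_, rfl⟩
    obtain ⟨a2, ha2⟩ : ∃ a2, a2 = (∑ m ∈ Finset.Icc 2 k, c ^ m * TW k ((k - 1) * m) T Δ).re := ⟨_, rfl⟩
    rw [← ha1, ← ha2] at q1
    rw [← ha1] at hre1
    rw [← ha2] at hre2
    have h4 : C * T ^ (-(2 : ℝ)) ≤ C * (Δ * L) := mul_le_mul_of_nonneg_left (hT2'.trans hΔL) hC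
    have e : S - IM k T Δ - 2 * c.re * Q = (S - IM k T Δ - 2 * (a1 + a2)) + 2 * (a1 - c.re * Q) + 2 * a2 := by ring
    rw [e]
    have n1 := abs_add_le ((S - IM k T Δ - 2 * (a1 + a2)) + 2 * (a1 - c.re * Q)) (2 * a2)
    have n2 := abs_add_le (S - IM k T Δ - 2 * (a1 + a2)) (2 * (a1 - c.re * Q))
    rw [abs_mul, abs_of_pos (by norm_num : (0:ℝ) < 2)] at n1 n2
    calc _ ≤ C * (Δ * L) + 2 * (K * (Δ * L)) + 2 * (k * ((K + √Real.pi) * (Δ * L))) := by linarith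
      _ = _ := by ring
  · obtain ⟨δ, B, hδ, hδ4, hB, hr⟩ := ratio k hk
    refine ⟨δ, B, hδ, fun N hN hkN c r ε hr0 hr1 hε => ?_⟩
    have hpos := IM_pos k hk hδ4 hB
    have h := arc hpos (weyl hk hN hkN hδ4 hB hr) c hr0 hr1
    have h1 := (Metric.tendsto_nhds.1 h) ε hε
    obtain ⟨T₀, h2⟩ := ev_Rg.1 (h1.and hpos)
    refine ⟨T₀, fun T Δ hT hΔ hBT => ?_⟩
    obtain ⟨h3, h4⟩ := h2 T Δ hT hΔ hBT
    simp only at h3 h4
    rw [M_eq, Sec_eq]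
    refine ⟨h4, ?_⟩
    have e : (∫ t in Ioc (T / 2) (3 * T / 2) ∩ Sc N c r, ‖z t‖ ^ (2 * k) * g T Δ t) = AM k N c r T Δ := rfl
    rw [e]
    rw [Real.dist_eq] at h3
    have h5 : AM k N c r T Δ - 2 * r * IM k T Δ = (AM k N c r T Δ / IM k T Δ - 2 * r) * IM k T Δ := by
      field_simp
    rw [h5, abs_mul, abs_of_pos h4]
    exact mul_le_mul_of_nonneg_right h3.le h4.le
  · intro c r ε hr0 hr1 h0 h1
    rw [Sec_eq]
    filter_upwards [sec_upper hk hN hkN c hr0 hr1 h0 h1, sec_lower hk hN hkN c hr0 hr1 h0 h1] with T h2 h3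
    exact ⟨h2, h3⟩
  · intro u ε hu h0 h1
    filter_upwards [upper a_maj a_line a_meas a_quad a_qs (cc_norm hu N) hk hN hkN h0 h1,
      lower a_maj a_maj2 a_line a_meas a_quad a_qs (cc_norm hu N) hk hN hkN h0 h1] with T h2 h3
    rw [SS_eq hu hN hk, SS_eq hu hN hk]
    exact ⟨h2, h3⟩
  · intro a c r hr0 hr1
    rw [Sec_eq]
    have h := sec_equiv hk hN hkN c hr0 hr1 a
    simp only [rp] at h
    exact h
  · intro a u hu
    have h := equiv a_taub a_wt a_line a_meas a_quad a_qs (cc_norm hu N) hk hN hkN a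
    simp only [rp, rp1, ← SS_eq hu hN hk] at h
    exact h

end Pool.Agent.Results.MP_112ba8_nt.DirectionOfZeta
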