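import Pool.Agent.N798.Z10

set_option autoImplicit false

/-!
# MP_112ba8_nt: the freezing transition for the moments of zeta along almost every sparse sequence

Let `g > 0` and let `x_0, x_1, ...` be positive reals with `log x_n / log n → g` and
`x_(n+1) - x_n ≥ n^(min(g,1) - 1 - o(1))`, for instance `x_n = (n+1)^g`. For almost every `c > 0` and almost every
`α > 0`, the values `z_n = |ζ(1/2 + i α exp(c x_n))|` behave, on the scale of powers of `N`, like independent
log-normal variables with the predicted variance: with `Λ(β) = 1 + gβ²/4` for `β ≤ 2/√g`, `Λ(β) = β√g` for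
`β > 2/√g`,

* `#{n < N : z_n ≥ N^u} ≥ N^(1 - u²/g - o(1))` for `0 ≤ u < √g`, with equality if `u ≤ 2g`;
* `∑_{n<N} z_n^β ≥ N^(Λ(β) - o(1))` for every `β > 0`, with equality if `β ≤ 4` or `g ≥ 1/4`;
* if `g ≥ 1/4` and `u > √g`, all `z_n`, `n < N`, are less than `N^u` for large `N`.
-/

open Filter Topology MeasureTheory

namespace Pool.Agent.Results.MP_112ba8_nt.FreezingTransition

/-- the hypotheses on the sequence -/
def Admissible (x : ℕ → ℝ) (g : ℝ) : Prop :=
  (∀ n, 0 < x n) ∧ Tendsto (fun n : ℕ => Real.log (x n) / Real.log n) atTop (𝓝 g) ∧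
    ∀ η : ℝ, 0 < η → ∀ᶠ n : ℕ in atTop, (n : ℝ) ^ (min g 1 - 1 - η) ≤ x (n + 1) - x n

/-- the values of zeta at the heights `α exp(c x_n)` -/
noncomputable def zv (x : ℕ → ℝ) (c α : ℝ) (n : ℕ) : ℝ :=
  ‖riemannZeta (1 / 2 + ((α * Real.exp (c * x n) : ℝ) : ℂ) * Complex.I)‖

/-- the number of `n < N` with `z n ≥ N^u` -/
noncomputable def count (z : ℕ → ℝ) (u : ℝ) (N : ℕ) : ℝ :=
  (((Finset.range N).filter fun n => (N : ℝ) ^ u ≤ z n).card : ℝ)

/-- `f N = N^(L + o(1))` -/
def Size (f : ℕ → ℝ) (L : ℝ) : Prop :=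
  Tendsto (fun N : ℕ => Real.log (f N) / Real.log N) atTop (𝓝 L)

/-- the exponent of the sum of the `β`-th powers: quadratic up to `β = 2 / √g`, linear afterwards -/
noncomputable def Lam (g β : ℝ) : ℝ :=
  if β ≤ 2 / Real.sqrt g then 1 + g * β ^ 2 / 4 else β * Real.sqrt g

theorem result :
    (∀ (x : ℕ → ℝ) (g : ℝ), 0 < g → Admissible x g → ∀ᵐ c : ℝ, 0 < c → ∀ᵐ α : ℝ, 0 < α →
      (∀ u : ℝ, 0 ≤ u → u < Real.sqrt g →
        (∀ s : ℝ, s < 1 - u ^ 2 / g → ∀ᶠ N : ℕ in atTop, (N : ℝ) ^ s ≤ count (zv x c α) u N) ∧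
        (u ≤ 2 * g → Size (count (zv x c α) u) (1 - u ^ 2 / g))) ∧
      (∀ β : ℝ, 0 < β →
        (∀ s : ℝ, s < Lam g β → ∀ᶠ N : ℕ in atTop, (N : ℝ) ^ s ≤ ∑ n ∈ Finset.range N, zv x c α n ^ β) ∧
        (β ≤ 4 ∨ 1 / 4 ≤ g → Size (fun N => ∑ n ∈ Finset.range N, zv x c α n ^ β) (Lam g β))) ∧
      (1 / 4 ≤ g → ∀ u : ℝ, Real.sqrt g < u → ∀ᶠ N : ℕ in atTop, ∀ n < N, zv x c α n < (N : ℝ) ^ u)) ∧
    ∀ g : ℝ, 0 < g → Admissible (fun n : ℕ => ((n : ℝ) + 1) ^ g) g := by
  refine ⟨fun x g hg hx => ?_, fun g hg => ?_⟩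
  · filter_upwards [Pool.Agent.N798.Z.main ⟨hg, hx.1, hx.2.1, hx.2.2⟩] with c hc hc0
    filter_upwards [hc hc0] with α hα hα0
    have h := hα hα0
    have hs0 : 0 < Real.sqrt g := Real.sqrt_pos.mpr hg
    have hsq : Real.sqrt g * Real.sqrt g = g := Real.mul_self_sqrt hg.le
    refine ⟨fun u h1 h2 => ⟨fun s hs => h.low u h1 h2 s hs, fun h3 => h.count h1 h2 h3⟩, fun β hβ => ?_,
      fun h4 u hu => h.none h4 hu⟩
    unfold Lam
    by_cases hb : β ≤ 2 / Real.sqrt g
    · rw [if_pos hb]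
      constructor
      · intro s hs
        refine h.pw_low (v0 := g * β / 2) hβ (by positivity) ?_ ?_
        · rw [le_div_iff₀ hs0] at hb
          nlinarith
        · have : β * (g * β / 2) + 1 - (g * β / 2) ^ 2 / g = 1 + g * β ^ 2 / 4 := by field_simp; ring
          rw [this]; exact hs
      · intro h4
        have hβ4 : β ≤ 4 := by
          rcases h4 with h4 | h4
          · exact h4
          · refine hb.trans ?_
            have : 1 / 2 ≤ Real.sqrt g := by
              rw [Real.le_sqrt (by norm_num) hg.le]; linarith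
            rw [div_le_iff₀ hs0]; linarith
        exact h.before hβ hβ4 hb
    · rw [if_neg hb]
      push Not at hb
      constructor
      · intro s hs
        refine h.pw_low (v0 := Real.sqrt g) hβ hs0 le_rfl ?_
        have : β * Real.sqrt g + 1 - Real.sqrt g ^ 2 / g = β * Real.sqrt g := by
          rw [sq, hsq, div_self hg.ne']; ring
        rw [this]; exact hs
      · intro h4
        refine h.after ?_ hb.le
        rcases h4 with h4 | h4
        · have h5 : 2 / Real.sqrt g < 4 := hb.trans_le h4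
          rw [div_lt_iff₀ hs0] at h5
          nlinarith
        · exact h4
  · have h := Pool.Agent.N798.Z.pow_seq hg
    exact ⟨h.pos, h.lim, h.gap⟩

end Pool.Agent.Results.MP_112ba8_nt.FreezingTransition
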