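import Pool.Agent.N798.V11

set_option autoImplicit false

/-!
# MP_112ba8_nt: the moments of zeta and the variance of the divisor functions on short multiplicative intervals

Let `d_k(n)` be the number of ordered `k`-tuples of positive integers with product `n`, and let
`Δ_k(x) = ∑_{n ≤ x} d_k(n) - Res_{s=1} ζ(s)^k x^s / s` be the remainder in the Piltz divisor problem.
For `h > 0` put `V_k(h) = ∫_0^∞ |Δ_k(x e^h) - Δ_k(x)|² dx / x²`.

Main theorem. For all integers `k ≥ 0`, `A ≥ 0` and all real `c ≥ 0`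

`(1/T) ∫_0^T |ζ(1/2 + it)|^(2k) dt ~ c (log T)^A` as `T → ∞` if and only if `V_k(h) ~ c h (log (1/h))^A` as `h → 0+`

(for `c = 0`: `o` in place of `~`). In particular the question Q1 is equivalent to the existence, for every
`k ≥ 3`, of a constant `c_k > 0` with `V_k(h) ~ c_k h (log (1/h))^(k²)`, and the constants are the same.

The proof rests on the exact formula `V_k(h) = (1/2π) ∫ |(e^{h(1/2+it)} - 1) / (1/2+it)|² |ζ(1/2+it)|^(2k) dt`
(also when both sides are infinite) and on a Tauberian theorem which recovers the mean value of a nonnegative even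
function `f` from the quadratic functional `∫ |e^{h(1/2+it)} - 1|² f(t) / (1/4 + t²) dt`, `h → 0+`: since
`|e^{h(1/2+it)} - 1|²` vanishes to order `h²` at the points `2πm/h`, no Wiener type theorem for this kernel applies
directly; the theorem is proved with the help of the nonnegativity through Fejér kernels.
-/

namespace Pool.Agent.Results.MP_112ba8_nt.ShortIntervalVariance

open Complex MeasureTheory Filter Topology Set
open scoped ENNReal Real

noncomputable section

/-- The mean value `M_k(T) = (1/T) ∫_0^T |ζ(1/2 + it)|^(2k) dt`. -/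
def M (k : ℕ) (T : ℝ) : ℝ := 1 / T * ∫ t in (0:ℝ)..T, ‖riemannZeta (1 / 2 + t * I)‖ ^ (2 * k)

/-- The divisor function `d_k`, the `k`-fold Dirichlet convolution of the constant function `1`. -/
def d (k n : ℕ) : ℕ := (ArithmeticFunction.zeta ^ k : ArithmeticFunction ℕ) n

/-- The main term in the Piltz divisor problem, the residue of `ζ(s)^k x^s / s` at `s = 1`, as an integral over
the circle `|s - 1| = 1/4`. -/
def mainTerm (k : ℕ) (x : ℝ) : ℂ :=
  (2 * π * I)⁻¹ * ∮ s in C(1, 1 / 4), riemannZeta s ^ k * (x : ℂ) ^ s / s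

/-- The remainder `Δ_k(x) = ∑_{n ≤ x} d_k(n) - Res_{s=1} ζ(s)^k x^s / s`. -/
def Δ (k : ℕ) (x : ℝ) : ℂ := (∑ n ∈ Finset.Icc 1 ⌊x⌋₊, (d k n : ℂ)) - mainTerm k x

/-- The variance `V_k(h) = ∫_0^∞ |Δ_k(x e^h) - Δ_k(x)|² dx / x²`, a number in `[0, ∞]`. -/
def V (k : ℕ) (h : ℝ) : ℝ≥0∞ :=
  ∫⁻ x in Ioi (0:ℝ), ENNReal.ofReal (‖Δ k (x * Real.exp h) - Δ k x‖ ^ 2 / x ^ 2)

lemma core (k A : ℕ) {c : ℝ} (hc : 0 ≤ c) :
    Tendsto (fun T : ℝ => M k T / Real.log T ^ A) atTop (𝓝 c) ↔
      Tendsto (fun h : ℝ => V k h / ENNReal.ofReal (h * Real.log (1 / h) ^ A)) (𝓝[>] 0) (𝓝 (ENNReal.ofReal c)) := by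
  have h := Pool.Agent.N798.V.moment_iff (Pool.Agent.N798.V.svLog A) k hc
  have e : (fun T : ℝ => M k T / Real.log T ^ A) =ᶠ[atTop]
      (fun T : ℝ => (∫ t : ℝ in Ioc 0 T, ‖riemannZeta (1 / 2 + t * I)‖ ^ (2 * k)) / (T * Real.log T ^ A)) := by
    filter_upwards [eventually_gt_atTop (0:ℝ)] with T hT
    unfold M
    rw [intervalIntegral.integral_of_le hT.le]
    rw [one_div, inv_mul_eq_div, div_div]
  rw [tendsto_congr' e]
  exact h

/-- **The moments of zeta and the variance of `d_k` on short multiplicative intervals.** For all `k`, `A` and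
`c ≥ 0` the mean value `M_k(T)` is `~ c (log T)^A` if and only if the variance `V_k(h)` is `~ c h (log (1/h))^A`; and
the question Q1 holds if and only if for every `k ≥ 3` there is `c > 0` with `V_k(h) ~ c h (log (1/h))^(k²)`. -/
theorem result :
    (∀ (k A : ℕ) (c : ℝ), 0 ≤ c →
      (Tendsto (fun T : ℝ => M k T / Real.log T ^ A) atTop (𝓝 c) ↔
        Tendsto (fun h : ℝ => V k h / ENNReal.ofReal (h * Real.log (1 / h) ^ A)) (𝓝[>] 0)
          (𝓝 (ENNReal.ofReal c)))) ∧
    ((∀ k : ℕ, 3 ≤ k → ∃ c : ℝ, 0 < c ∧ Tendsto (fun T : ℝ => M k T / Real.log T ^ (k ^ 2)) atTop (𝓝 c)) ↔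
      (∀ k : ℕ, 3 ≤ k → ∃ c : ℝ, 0 < c ∧
        Tendsto (fun h : ℝ => V k h / ENNReal.ofReal (h * Real.log (1 / h) ^ (k ^ 2))) (𝓝[>] 0)
          (𝓝 (ENNReal.ofReal c)))) := by
  refine ⟨fun k A c hc => core k A hc, ?_⟩
  constructor
  · intro h k hk
    obtain ⟨c, hc, h1⟩ := h k hk
    exact ⟨c, hc, (core k (k ^ 2) hc.le).1 h1⟩
  · intro h k hk
    obtain ⟨c, hc, h1⟩ := h k hk
    exact ⟨c, hc, (core k (k ^ 2) hc.le).2 h1⟩

end

end Pool.Agent.Results.MP_112ba8_nt.ShortIntervalVariance
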