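import Pool.Agent.N748.MG.Res

set_option autoImplicit false

/-!
# Moments of all orders of zeta near the critical line, truncated at every level
-/

namespace Pool.Agent.Results.MP_112ba8_nt.TruncatedMoments

open MeasureTheory Filter Topology

/-- the arithmetic factor of the moment conjecture,
`a(k) = ∏_p (1 - 1/p)^{k²} Σ_m (k (k+1) ... (k+m-1) / m!)² p^{-m}` -/
noncomputable def ak (k : ℝ) : ℝ :=
  ∏' p : Nat.Primes, ((1 - 1 / (p : ℝ)) ^ (k ^ 2) *
    ∑' m : ℕ, (∏ i ∈ Finset.range m, (k + i) / ((i : ℝ) + 1)) ^ 2 * (1 / (p : ℝ)) ^ m)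

/-- the modulus of zeta at distance `d` from the critical line and height `t` -/
noncomputable def z (d t : ℝ) : ℝ := ‖riemannZeta (1 / 2 + d + t * Complex.I)‖

/-- the moment of order `2k` up to height `T`, over the points where `|ζ| ≤ c` -/
noncomputable def M (k c d T : ℝ) : ℝ := (1 / T) * ∫ t in {t : ℝ | t ∈ Set.Icc 0 T ∧ z d t ≤ c}, z d t ^ (2 * k)

/-- the logarithm of `1/(2d)` -/
noncomputable def L (d : ℝ) : ℝ := Real.log (1 / (2 * d))

/-- the normal distribution function -/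
noncomputable def Phi (x : ℝ) : ℝ := (ProbabilityTheory.gaussianReal 0 1 (Set.Iic x)).toReal

lemma adm {d : ℝ → ℝ} (hd0 : ∀ᶠ T : ℝ in atTop, 0 < d T) (hd : Tendsto d atTop (𝓝 0))
    (hdL : Tendsto (fun T : ℝ => d T * Real.log T / Real.log (1 / d T) ^ 2) atTop atTop) :
    Pool.Agent.N748.MG.Ad d := ⟨hd0, hd, hdL⟩

theorem result (d : ℝ → ℝ) (hd0 : ∀ᶠ T : ℝ in atTop, 0 < d T) (hd : Tendsto d atTop (𝓝 0))
    (hdL : Tendsto (fun T : ℝ => d T * Real.log T / Real.log (1 / d T) ^ 2) atTop atTop) (k : ℝ) (hk : 0 < k) :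
    (∀ V : ℝ, k < V →
      Tendsto (fun T : ℝ => M k ((2 * d T) ^ (-V)) (d T) T / (ak k * (2 * d T) ^ (-(k ^ 2)))) atTop (𝓝 1)) ∧
    (∀ x : ℝ, Tendsto (fun T : ℝ =>
      M k ((2 * d T) ^ (-k) * Real.exp (x * Real.sqrt (L (d T) / 2))) (d T) T / (ak k * (2 * d T) ^ (-(k ^ 2)))) atTop
        (𝓝 (Phi x))) ∧
    (∀ V : ℝ, V < k → Tendsto (fun T : ℝ => M k ((2 * d T) ^ (-V)) (d T) T /
      (ak V * (2 * d T) ^ (V ^ 2 - 2 * k * V) / (2 * (k - V) * Real.sqrt (Real.pi * L (d T))))) atTop (𝓝 1)) := by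
  have hA := adm hd0 hd hdL
  have hak : ∀ V : ℝ, ak V = Pool.Agent.N748.MG.akR V := fun V => rfl
  have hpos : ∀ V : ℝ, 0 < ak V := fun V => (Pool.Agent.N748.MG.aC_akR V).1
  have hsmall : ∀ᶠ T : ℝ in atTop, d T < 1 / 2 := hd.eventually (gt_mem_nhds (by norm_num))
  refine ⟨fun V hV => ?_, fun x => ?_, fun V hV => ?_⟩
  · have h := Pool.Agent.N748.MG.tm1F d hA k V hk hV
    rw [Pool.Agent.N748.MG.aC_re, ← hak] at h
    have h2 := h.div_const (ak k)
    rw [div_self (hpos k).ne'] at h2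
    refine h2.congr' ?_
    filter_upwards [hd0] with T hT
    have h3 : (0:ℝ) < 2 * d T := by linarith
    have h4 : (2 * d T) ^ (-(k ^ 2)) = ((2 * d T) ^ (k ^ 2))⁻¹ := Real.rpow_neg h3.le _
    have h5 : (0:ℝ) < (2 * d T) ^ (k ^ 2) := Real.rpow_pos_of_pos h3 _
    have h6 := hpos k
    change (2 * d T) ^ (k ^ 2) * M k ((2 * d T) ^ (-V)) (d T) T / ak k = _
    rw [h4]
    field_simp
  · have h := Pool.Agent.N748.MG.tm2F d hA k x hk
    rw [Pool.Agent.N748.MG.aC_re, ← hak] at h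
    have h2 := h.div_const (ak k)
    rw [mul_div_cancel_left₀ _ (hpos k).ne'] at h2
    refine h2.congr' ?_
    filter_upwards [hd0] with T hT
    have h3 : (0:ℝ) < 2 * d T := by linarith
    have h4 : (2 * d T) ^ (-(k ^ 2)) = ((2 * d T) ^ (k ^ 2))⁻¹ := Real.rpow_neg h3.le _
    have h5 : (0:ℝ) < (2 * d T) ^ (k ^ 2) := Real.rpow_pos_of_pos h3 _
    have h6 := hpos k
    change (2 * d T) ^ (k ^ 2) * M k ((2 * d T) ^ (-k) * Real.exp (x * Real.sqrt (L (d T) / 2))) (d T) T / ak k = _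
    rw [h4]
    field_simp
  · have h := Pool.Agent.N748.MG.tm3F d hA k V hk hV
    rw [Pool.Agent.N748.MG.aC_re, ← hak] at h
    have hkV : (0:ℝ) < 2 * (k - V) := by linarith
    have h2 := h.div_const (ak V / (2 * (k - V)))
    rw [div_self (div_pos (hpos V) hkV).ne'] at h2
    refine h2.congr' ?_
    filter_upwards [hd0, hsmall] with T hT hT2
    have h3 : (0:ℝ) < 2 * d T := by linarith
    have h4 : (2 * d T) ^ (V ^ 2 - 2 * k * V) = ((2 * d T) ^ (2 * k * V - V ^ 2))⁻¹ := by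
      rw [← Real.rpow_neg h3.le]; congr 1; ring
    have h5 : (0:ℝ) < (2 * d T) ^ (2 * k * V - V ^ 2) := Real.rpow_pos_of_pos h3 _
    have h6 := hpos V
    have h7 : 0 < L (d T) := Real.log_pos (by rw [lt_div_iff₀ h3]; linarith)
    have h8 : 0 < Real.sqrt (Real.pi * L (d T)) := Real.sqrt_pos.2 (by positivity)
    change Real.sqrt (Real.pi * L (d T)) * (2 * d T) ^ (2 * k * V - V ^ 2) * M k ((2 * d T) ^ (-V)) (d T) T /
      (ak V / (2 * (k - V))) = _
    rw [h4]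
    field_simp

end Pool.Agent.Results.MP_112ba8_nt.TruncatedMoments
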